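import Pool.Agent.helper93.TV.Spec1

/-!
# TV, row Rig: Ocneanu rigidity, assembly
-/

set_option autoImplicit false
set_option linter.unusedVariables false

namespace Pool.Agent.helper93.TV

open BigOperators Finset Matrix

section lin

variable {I V : Type} [Fintype I] [DecidableEq I] [Fintype V] [DecidableEq V]

theorem Rig_L12_add (A B : Matrix (V × V) (V × V) ℂ) : L12 (A + B) = L12 A + L12 B := by
  ext x y
  simp only [L12, Matrix.add_apply]
  split_ifs <;> simp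

theorem Rig_L23_add (A B : Matrix (V × V) (V × V) ℂ) : L23 (A + B) = L23 A + L23 B := by
  ext x y
  simp only [L23, Matrix.add_apply]
  split_ifs <;> simp

theorem Rig_L13_add (A B : Matrix (V × V) (V × V) ℂ) : L13 (A + B) = L13 A + L13 B := by
  ext x y
  simp only [L13, Matrix.add_apply]
  split_ifs <;> simp

theorem Rig_L12_smul (c : ℂ) (A : Matrix (V × V) (V × V) ℂ) : L12 (c • A) = c • L12 A := by
  ext x y
  simp only [L12, Matrix.smul_apply]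
  split_ifs <;> simp

theorem Rig_L23_smul (c : ℂ) (A : Matrix (V × V) (V × V) ℂ) : L23 (c • A) = c • L23 A := by
  ext x y
  simp only [L23, Matrix.smul_apply]
  split_ifs <;> simp

theorem Rig_L13_smul (c : ℂ) (A : Matrix (V × V) (V × V) ℂ) : L13 (c • A) = c • L13 A := by
  ext x y
  simp only [L13, Matrix.smul_apply]
  split_ifs <;> simp

theorem Rig_dd_add (F : V → V → V → V → ℂ) (A B : Matrix (V × V) (V × V) ℂ) :
    dd F (A + B) = dd F A + dd F B := by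
  unfold dd f0 f1 f2 f3 f4
  rw [Rig_L12_add, Rig_L23_add, Rig_L13_add]
  simp only [Matrix.mul_add, Matrix.add_mul]
  abel

theorem Rig_dd_smul (F : V → V → V → V → ℂ) (c : ℂ) (A : Matrix (V × V) (V × V) ℂ) :
    dd F (c • A) = c • dd F A := by
  unfold dd f0 f1 f2 f3 f4
  rw [Rig_L12_smul, Rig_L23_smul, Rig_L13_smul]
  simp only [Matrix.mul_smul, Matrix.smul_mul, smul_add, smul_sub]

/-- The differential as a linear map. -/
def Rig_ddL (F : V → V → V → V → ℂ) :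
    Matrix (V × V) (V × V) ℂ →ₗ[ℂ] Matrix (V × V × V) (V × V × V) ℂ where
  toFun := dd F
  map_add' := Rig_dd_add F
  map_smul' := Rig_dd_smul F

theorem Rig_lin (F : V → V → V → V → ℂ) : ∃ C : ℝ, 0 ≤ C ∧
    ∀ (W : Matrix (V × V) (V × V) ℂ) (x y : V × V × V),
      ‖dd F W x y‖ ≤ C * ∑ z, ∑ w, ‖W z w‖ := by
  refine ⟨∑ z, ∑ w, ∑ x, ∑ y, ‖dd F (Matrix.single z w 1) x y‖, by positivity, ?_⟩
  intro W x y
  have e : dd F W x y = ∑ z, ∑ w, W z w * dd F (Matrix.single z w 1) x y := by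
    have h1 : W = ∑ z, ∑ w, W z w • (Matrix.single z w (1 : ℂ)) := by
      conv_lhs => rw [Matrix.matrix_eq_sum_single W]
      refine Finset.sum_congr rfl fun z _ => Finset.sum_congr rfl fun w _ => ?_
      rw [Matrix.smul_single, smul_eq_mul, mul_one]
    have h2 : dd F W = Rig_ddL F W := rfl
    rw [h2]
    conv_lhs => rw [h1]
    rw [map_sum, Matrix.sum_apply]
    refine Finset.sum_congr rfl fun z _ => ?_
    rw [map_sum, Matrix.sum_apply]
    refine Finset.sum_congr rfl fun w _ => ?_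
    rw [map_smul, Matrix.smul_apply, smul_eq_mul]
    rfl
  have hb : ∀ z w, ‖dd F (Matrix.single z w 1) x y‖ ≤
      ∑ z, ∑ w, ∑ x, ∑ y, ‖dd F (Matrix.single z w 1) x y‖ := by
    intro z w
    calc ‖dd F (Matrix.single z w 1) x y‖
        ≤ ∑ y, ‖dd F (Matrix.single z w 1) x y‖ :=
          Finset.single_le_sum (f := fun y => ‖dd F (Matrix.single z w 1) x y‖)
            (fun _ _ => norm_nonneg _) (mem_univ y)
      _ ≤ ∑ x, ∑ y, ‖dd F (Matrix.single z w 1) x y‖ :=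
          Finset.single_le_sum (f := fun x => ∑ y, ‖dd F (Matrix.single z w 1) x y‖)
            (fun _ _ => by positivity) (mem_univ x)
      _ ≤ ∑ w, ∑ x, ∑ y, ‖dd F (Matrix.single z w 1) x y‖ :=
          Finset.single_le_sum (f := fun w => ∑ x, ∑ y, ‖dd F (Matrix.single z w 1) x y‖)
            (fun _ _ => by positivity) (mem_univ w)
      _ ≤ _ :=
          Finset.single_le_sum (f := fun z => ∑ w, ∑ x, ∑ y, ‖dd F (Matrix.single z w 1) x y‖)
            (fun _ _ => by positivity) (mem_univ z)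
  rw [e, Finset.mul_sum]
  refine (norm_sum_le _ _).trans (Finset.sum_le_sum fun z _ => ?_)
  rw [Finset.mul_sum]
  refine (norm_sum_le _ _).trans (Finset.sum_le_sum fun w _ => ?_)
  rw [norm_mul, mul_comm]
  exact mul_le_mul_of_nonneg_right (hb z w) (norm_nonneg _)

theorem Rig_h3_add (D : FD I V) (F : V → V → V → V → ℂ)
    (A B : Matrix (V × V × V) (V × V × V) ℂ) : D.h3 F (A + B) = D.h3 F A + D.h3 F B := by
  ext x y
  simp only [FD.h3, Matrix.add_apply]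
  rw [← mul_add, ← Finset.sum_add_distrib]
  congr 1
  refine Finset.sum_congr rfl fun ε _ => ?_
  split_ifs
  · ring
  · simp

theorem Rig_h3_sub (D : FD I V) (F : V → V → V → V → ℂ)
    (A B : Matrix (V × V × V) (V × V × V) ℂ) : D.h3 F (A - B) = D.h3 F A - D.h3 F B := by
  ext x y
  simp only [FD.h3, Matrix.sub_apply]
  rw [← mul_sub, ← Finset.sum_sub_distrib]
  congr 1
  refine Finset.sum_congr rfl fun ε _ => ?_
  split_ifs
  · ring
  · simp

theorem Rig_h3_bound (D : FD I V) (F : V → V → V → V → ℂ)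
    (Z : Matrix (V × V × V) (V × V × V) ℂ) (x y : V × V) (B : ℝ) (hB : 0 ≤ B)
    (h : ∀ ε, D.t x.2 = D.s1 ε → ‖Z (x.1, x.2, ε) (y.1, y.2, ε)‖ ≤ B) :
    ‖D.h3 F Z x y‖ ≤ (‖(((D.gd F)⁻¹ : ℝ) : ℂ)‖ * ∑ ε, ‖D.wt F ε‖) * B := by
  simp only [FD.h3]
  rw [norm_mul, mul_assoc]
  refine mul_le_mul_of_nonneg_left ?_ (norm_nonneg _)
  rw [Finset.sum_mul]
  refine (norm_sum_le _ _).trans (Finset.sum_le_sum fun ε _ => ?_)
  split_ifs with hε
  · rw [norm_mul]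
    exact mul_le_mul_of_nonneg_left (h ε hε) (norm_nonneg _)
  · rw [norm_zero]
    positivity

/-- The homotopy formula. -/
theorem Rig_hom (H0 : H0_stmt) (H12 : H12_stmt) (H3 : H3_stmt) (H4 : H4_stmt) (U2 : U2_stmt)
    (S1 : S1_stmt) (S2 : S2_stmt) (Q1 : Q1_stmt) (Q2 : Q2_stmt) (D : FD I V)
    (F : V → V → V → V → ℂ) (hF : D.UFS F) (hD : D.Dims F) (Y : Matrix (V × V) (V × V) ℂ)
    (hY : D.C3 Y) (x y : V × V) (hx : D.t x.1 = D.s1 x.2) :
    Y x y = D.h3 F (dd F Y) x y - dp F (D.h2 F Y) x y := by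
  have e : D.h3 F (dd F Y) = D.h3 F (f0 F Y) - D.h3 F (f1 Y) + D.h3 F (f2 F Y) -
      D.h3 F (f3 F Y) + D.h3 F (f4 Y) := by
    unfold dd
    rw [Rig_h3_add, Rig_h3_sub, Rig_h3_add, Rig_h3_sub]
  rw [e, H0 Q2 U2 S2 I V D F hF hD Y hY, (H12 I V D F hF Y hY).1, (H12 I V D F hF Y hY).2,
    H4 I V D F hD Y]
  unfold dp
  simp only [Matrix.add_apply, Matrix.sub_apply]
  rw [H3 Q1 S1 I V D F hF hD Y hY x y hx]
  ring

end lin

section bounds

variable {n : Type} [Fintype n] [DecidableEq n]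

theorem Rig_mul_bound (A : Matrix n n ℂ) (x y : n) :
    ‖(A * Aᴴ) x y‖ ≤ ∑ z, ∑ w, ‖A z w‖ ^ 2 := by
  have hsum : ∀ x, ∑ w, ‖A x w‖ ^ 2 ≤ ∑ z, ∑ w, ‖A z w‖ ^ 2 := fun x =>
    Finset.single_le_sum (f := fun z => ∑ w, ‖A z w‖ ^ 2) (fun _ _ => by positivity) (mem_univ x)
  rw [Matrix.mul_apply]
  calc ‖∑ j, A x j * Aᴴ j y‖ ≤ ∑ j, ‖A x j * Aᴴ j y‖ := norm_sum_le _ _
    _ ≤ ∑ j, (‖A x j‖ ^ 2 + ‖A y j‖ ^ 2) / 2 := by
        refine Finset.sum_le_sum fun j _ => ?_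
        rw [norm_mul, Matrix.conjTranspose_apply, norm_star]
        nlinarith [sq_nonneg (‖A x j‖ - ‖A y j‖)]
    _ = ((∑ j, ‖A x j‖ ^ 2) + ∑ j, ‖A y j‖ ^ 2) / 2 := by
        rw [← Finset.sum_div, Finset.sum_add_distrib]
    _ ≤ _ := by
        have h1 := hsum x
        have h2 := hsum y
        linarith

theorem Rig_hs_bound (A B : Matrix n n ℂ) :
    ∑ x, ∑ y, ‖(A * Bᴴ) x y‖ ^ 2 ≤ (∑ z, ∑ w, ‖A z w‖ ^ 2) * ∑ z, ∑ w, ‖B z w‖ ^ 2 := by
  rw [Finset.sum_mul]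
  refine Finset.sum_le_sum fun x _ => ?_
  rw [Finset.mul_sum]
  refine Finset.sum_le_sum fun y _ => ?_
  have h1 : ‖(A * Bᴴ) x y‖ ≤ ∑ j, ‖A x j‖ * ‖B y j‖ := by
    rw [Matrix.mul_apply]
    refine (norm_sum_le _ _).trans (le_of_eq (Finset.sum_congr rfl fun j _ => ?_))
    rw [norm_mul, Matrix.conjTranspose_apply, norm_star]
  calc ‖(A * Bᴴ) x y‖ ^ 2 ≤ (∑ j, ‖A x j‖ * ‖B y j‖) ^ 2 := by
        exact pow_le_pow_left₀ (norm_nonneg _) h1 2
    _ ≤ _ := Finset.sum_mul_sq_le_sq_mul_sq _ _ _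

end bounds

section C3

variable {I V : Type} [Fintype I] [DecidableEq I] [Fintype V] [DecidableEq V]

theorem Rig_C3_conj (D : FD I V) {Y : Matrix (V × V) (V × V) ℂ} (h : D.C3 Y) : D.C3 Yᴴ := by
  intro x y hxy
  have h0 : Y y x ≠ 0 := by
    intro h1
    apply hxy
    rw [Matrix.conjTranspose_apply, h1, star_zero]
  obtain ⟨h1, h2, h3, h4, h5, h6⟩ := h y x h0
  exact ⟨h2, h1, h3.symm, h4.symm, h5.symm, h6.symm⟩

theorem Rig_C3_sub (D : FD I V) {Y Z : Matrix (V × V) (V × V) ℂ} (h : D.C3 Y) (h' : D.C3 Z) :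
    D.C3 (Y - Z) := by
  intro x y hxy
  by_cases h0 : Y x y = 0
  · apply h' x y
    intro h1
    apply hxy
    rw [Matrix.sub_apply, h0, h1, sub_zero]
  · exact h x y h0

theorem Rig_C3_smul (D : FD I V) (c : ℂ) {Y : Matrix (V × V) (V × V) ℂ} (h : D.C3 Y) :
    D.C3 (c • Y) := by
  intro x y hxy
  apply h x y
  intro h1
  apply hxy
  rw [Matrix.smul_apply, h1, smul_zero]

theorem Rig_C3_PL (D : FD I V) : D.C3 D.PL := by
  intro x y hxy
  simp only [FD.PL] at hxy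
  have h0 : x = y ∧ D.t x.1 = D.s1 x.2 := by
    by_contra h
    rw [if_neg h] at hxy
    exact hxy rfl
  obtain ⟨rfl, h1⟩ := h0
  exact ⟨h1, h1, rfl, rfl, rfl, rfl⟩

theorem Rig_PL_conj (D : FD I V) : (D.PL)ᴴ = D.PL := by
  ext x y
  rw [Matrix.conjTranspose_apply]
  simp only [FD.PL]
  by_cases h : x = y
  · subst h
    split_ifs <;> simp
  · have h' : ¬ y = x := fun e => h e.symm
    rw [if_neg (fun e => h' e.1), if_neg (fun e => h e.1), star_zero]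

theorem Rig_PL_mul (D : FD I V) {Y : Matrix (V × V) (V × V) ℂ} (h : D.C3 Y) :
    D.PL * Y = Y := by
  ext x y
  rw [Matrix.mul_apply, Finset.sum_eq_single x]
  · simp only [FD.PL]
    by_cases h0 : Y x y = 0
    · rw [h0, mul_zero]
    · rw [if_pos ⟨trivial, (h x y h0).1⟩, one_mul]
  · intro z _ hz
    simp only [FD.PL]
    rw [if_neg (fun e => hz e.1.symm), zero_mul]
  · intro hx
    exact absurd (mem_univ x) hx

theorem Rig_mul_PL (D : FD I V) {Y : Matrix (V × V) (V × V) ℂ} (h : D.C3 Y) :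
    Y * D.PL = Y := by
  have h1 := congrArg Matrix.conjTranspose (Rig_PL_mul D (Rig_C3_conj D h))
  rw [Matrix.conjTranspose_mul, Matrix.conjTranspose_conjTranspose, Rig_PL_conj] at h1
  exact h1

theorem Rig_C2_h2 (D : FD I V) (F : V → V → V → V → ℂ) {Y : Matrix (V × V) (V × V) ℂ}
    (h : D.C3 Y) : D.C2 (D.h2 F Y) := by
  intro v w hvw
  simp only [FD.h2] at hvw
  have h0 := right_ne_zero_of_mul hvw
  obtain ⟨γ, _, hγ⟩ := Finset.exists_ne_zero_of_sum_ne_zero h0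
  by_cases h1 : D.t v = D.s1 γ
  · rw [if_pos h1] at hγ
    obtain ⟨h2, h3, h4, h5, h6, h7⟩ := h _ _ (right_ne_zero_of_mul hγ)
    exact ⟨h4, h5, h2.trans h3.symm⟩
  · rw [if_neg h1] at hγ
    exact absurd rfl hγ

theorem Rig_h2_anti (D : FD I V) (F : V → V → V → V → ℂ) {Y : Matrix (V × V) (V × V) ℂ}
    (h : D.C3 Y) (hY : Yᴴ = -Y) : (D.h2 F Y)ᴴ = -(D.h2 F Y) := by
  have hst : ∀ x y, star (Y x y) = - Y y x := by
    intro x y
    have := congrFun (congrFun hY y) x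
    rwa [Matrix.conjTranspose_apply, Matrix.neg_apply] at this
  ext v w
  rw [Matrix.conjTranspose_apply, Matrix.neg_apply]
  simp only [FD.h2]
  rw [star_mul', star_sum, ← mul_neg, ← Finset.sum_neg_distrib]
  congr 1
  · rw [Complex.star_def, Complex.conj_ofReal]
  · refine Finset.sum_congr rfl fun γ _ => ?_
    have hw : star (D.wt F γ) = D.wt F γ := by
      simp only [FD.wt]
      rw [Complex.star_def, Complex.conj_ofReal]
    by_cases h0 : Y (v, γ) (w, γ) = 0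
    · have h0' : Y (w, γ) (v, γ) = 0 := by
        have := hst (v, γ) (w, γ)
        rw [h0, star_zero] at this
        exact neg_eq_zero.1 this.symm
      rw [h0, h0', mul_zero, ite_self, ite_self, star_zero, neg_zero]
    · obtain ⟨h1, h2, _⟩ := h _ _ h0
      have h1' : D.t v = D.s1 γ := h1
      have h2' : D.t w = D.s1 γ := h2
      rw [if_pos h1', if_pos h2', star_mul', hw, hst, mul_neg]

end C3

section core

variable {I V : Type} [Fintype I] [DecidableEq I] [Fintype V] [DecidableEq V]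

theorem Rig_core (H0 : H0_stmt) (H12 : H12_stmt) (H3 : H3_stmt) (H4 : H4_stmt) (U2 : U2_stmt)
    (S1 : S1_stmt) (S2 : S2_stmt) (Q1 : Q1_stmt) (Q2 : Q2_stmt) (X1 : X1_stmt) (Coc : Coc_stmt)
    (G : G_stmt) (Cr : Cr_stmt) (D : FD I V) (F : V → V → V → V → ℂ) (hF : D.UFS F)
    (hD : D.Dims F) : ∃ C : ℝ, 0 ≤ C ∧ ∀ F', D.UF F' →
    (∀ v, D.Gau v → ∑ α, ∑ γ, ∑ β, ∑ δ, ‖F' α γ β δ - F α γ β δ‖ ^ 2 ≤
      ∑ α, ∑ γ, ∑ β, ∑ δ, ‖act v F' α γ β δ - F α γ β δ‖ ^ 2) →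
    (∑ z, ∑ w, ‖(Fm F' * (Fm F)ᴴ - D.PL) z w‖ ^ 2) ≤
      C * (∑ z, ∑ w, ‖(Fm F' * (Fm F)ᴴ - D.PL) z w‖ ^ 2) ^ 2 := by
  obtain ⟨K, hK⟩ := Coc X1 I V D F hF.uf
  obtain ⟨C, hC0, hC⟩ := Rig_lin F
  obtain ⟨M, hM⟩ : ∃ M : ℝ, M = (Fintype.card ((V × V) × (V × V)) : ℝ) := ⟨_, rfl⟩
  have hM0 : 0 ≤ M := by rw [hM]; positivity
  obtain ⟨H, hH⟩ : ∃ H : ℝ, H = ‖(((D.gd F)⁻¹ : ℝ) : ℂ)‖ * ∑ ε, ‖D.wt F ε‖ := ⟨_, rfl⟩
  have hH0 : 0 ≤ H := by rw [hH]; positivity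
  obtain ⟨c, hc⟩ : ∃ c : ℝ, c = H * (|K| + C * M) := ⟨_, rfl⟩
  have hc0 : 0 ≤ c := by rw [hc]; positivity
  refine ⟨2 * (c ^ 2 * M) + 2 * M, by positivity, ?_⟩
  intro F' hF' hmin
  have hsumM : ∀ f : V × V → V × V → ℝ, ∀ B : ℝ, (∀ z w, f z w ≤ B) → 
      ∑ z, ∑ w, f z w ≤ M * B := by
    intro f B hf
    calc ∑ z, ∑ w, f z w ≤ ∑ z : V × V, ∑ w : V × V, B :=
          Finset.sum_le_sum fun z _ => Finset.sum_le_sum fun w _ => hf z w
      _ = M * B := by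
          rw [hM, Fintype.card_prod ((V × V)) (V × V)]
          simp only [Finset.sum_const, Finset.card_univ, nsmul_eq_mul]
          push_cast
          ring
  obtain ⟨hPL, hX3, hXF, hXX⟩ := X1 I V D F F' hF.uf hF'
  obtain ⟨X, hXd⟩ : ∃ X, X = Fm F' * (Fm F)ᴴ := ⟨_, rfl⟩
  have hKX := hK F' hF'
  have hCr := Cr X1 G I V D F F' hF.uf hF' hmin
  rw [← hXd] at hX3 hXF hXX hKX hCr ⊢
  obtain ⟨η, hη⟩ : ∃ η, η = X - D.PL := ⟨_, rfl⟩
  rw [← hη] at hKX ⊢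
  obtain ⟨S, hS⟩ : ∃ S, S = ∑ z, ∑ w, ‖η z w‖ ^ 2 := ⟨_, rfl⟩
  rw [← hS] at hKX ⊢
  have hS0 : 0 ≤ S := by rw [hS]; positivity
  have hη3 : D.C3 η := by rw [hη]; exact Rig_C3_sub D hX3 (Rig_C3_PL D)
  have hηη : ∀ x y, ‖(η * ηᴴ) x y‖ ≤ S := fun x y => by
    rw [hS]; exact Rig_mul_bound η x y
  have hXη : X = D.PL + η := by rw [hη]; abel
  have h1 : ηᴴ + η + η * ηᴴ = 0 := by
    have h2 := hXX
    rw [hXη, Matrix.conjTranspose_add, Rig_PL_conj, Matrix.add_mul, Matrix.mul_add,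
      Matrix.mul_add, Rig_PL_mul D (Rig_C3_PL D), Rig_PL_mul D (Rig_C3_conj D hη3),
      Rig_mul_PL D hη3, add_assoc, add_eq_left, ← add_assoc] at h2
    exact h2
  obtain ⟨A, hA⟩ : ∃ A, A = (1 / 2 : ℂ) • (X - Xᴴ) := ⟨_, rfl⟩
  have hA3 : D.C3 A := by
    rw [hA]; exact Rig_C3_smul D _ (Rig_C3_sub D hX3 (Rig_C3_conj D hX3))
  have hAanti : Aᴴ = -A := by
    rw [hA, Matrix.conjTranspose_smul, Matrix.conjTranspose_sub,
      Matrix.conjTranspose_conjTranspose, ← smul_neg, neg_sub]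
    congr 1
    rw [Complex.star_def, map_div₀, map_one, map_ofNat]
  have hAη : A = η + (1 / 2 : ℂ) • (η * ηᴴ) := by
    have h2 : X - Xᴴ = η - ηᴴ := by
      rw [hXη, Matrix.conjTranspose_add, Rig_PL_conj]
      abel
    have h3 : ηᴴ = -(η + η * ηᴴ) := by
      rw [add_assoc] at h1
      exact eq_neg_of_add_eq_zero_left h1
    rw [hA, h2]
    conv_lhs => rw [h3]
    rw [sub_neg_eq_add, ← add_assoc, smul_add, ← two_smul ℂ η, smul_smul]
    norm_num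
  -- bound for the differential
  have hdd : ∀ x y : V × V × V, D.t x.1 = D.s1 x.2.1 → D.t x.2.1 = D.s1 x.2.2 →
      D.t y.1 = D.s1 y.2.1 → D.t y.2.1 = D.s1 y.2.2 →
      ‖dd F A x y‖ ≤ (|K| + C * M) * S := by
    intro x y hx1 hx2 hy1 hy2
    have e : dd F A x y = dd F η x y + dd F ((1 / 2 : ℂ) • (η * ηᴴ)) x y := by
      rw [hAη, Rig_dd_add]
      rfl
    rw [e]
    have b1 := hKX x y hx1 hx2 hy1 hy2
    have b1' : K * S ≤ |K| * S := mul_le_mul_of_nonneg_right (le_abs_self K) hS0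
    have b2 := hC ((1 / 2 : ℂ) • (η * ηᴴ)) x y
    have b3 : ∑ z, ∑ w, ‖((1 / 2 : ℂ) • (η * ηᴴ)) z w‖ ≤ M * S := by
      apply hsumM
      intro z w
      rw [Matrix.smul_apply, norm_smul]
      have h5 : ‖(1 / 2 : ℂ)‖ ≤ 1 := by norm_num
      calc ‖(1 / 2 : ℂ)‖ * ‖(η * ηᴴ) z w‖ ≤ 1 * S :=
            mul_le_mul h5 (hηη z w) (norm_nonneg _) zero_le_one
        _ = S := one_mul _
    have b4 := mul_le_mul_of_nonneg_left b3 hC0
    have b5 := norm_add_le (dd F η x y) (dd F ((1 / 2 : ℂ) • (η * ηᴴ)) x y)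
    linarith
  have hh3 : ∀ x y, A x y ≠ 0 → ‖D.h3 F (dd F A) x y‖ ≤ c * S := by
    intro x y hxy
    obtain ⟨h2, h3, h4, h5, h6, h7⟩ := hA3 x y hxy
    have := Rig_h3_bound D F (dd F A) x y ((|K| + C * M) * S) (by positivity)
      (fun ε hε => hdd (x.1, x.2, ε) (y.1, y.2, ε) h2 hε h3 (h7.symm.trans hε))
    rw [← hH] at this
    rw [hc, mul_assoc]
    exact this
  obtain ⟨Z, hZ⟩ : ∃ Z, Z = D.h2 F A := ⟨_, rfl⟩
  have hst : ∀ x y, star (A x y) = - A y x := by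
    intro x y
    have := congrFun (congrFun hAanti y) x
    rwa [Matrix.conjTranspose_apply, Matrix.neg_apply] at this
  have hcross : (∑ x, ∑ y, star (A x y) * dp F Z x y).re = 0 := by
    have h2 := hCr Z (by rw [hZ]; exact Rig_C2_h2 D F hA3)
      (by rw [hZ]; exact Rig_h2_anti D F hA3 hAanti)
    have h3 : X - Xᴴ = (2 : ℂ) • A := by
      rw [hA, smul_smul]
      norm_num
    rw [h3, Matrix.smul_mul, Matrix.trace_smul, smul_eq_mul] at h2
    have h4 : ∑ x, ∑ y, star (A x y) * dp F Z x y = - Matrix.trace (A * dp F Z) := by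
      rw [Matrix.trace, ← Finset.sum_neg_distrib, Finset.sum_comm]
      refine Finset.sum_congr rfl fun y _ => ?_
      rw [Matrix.diag_apply, Matrix.mul_apply, ← Finset.sum_neg_distrib]
      refine Finset.sum_congr rfl fun x _ => ?_
      rw [hst, neg_mul]
    rw [h4, Complex.neg_re]
    have h5 : ((2 : ℂ) * (A * dp F Z).trace).re = 2 * ((A * dp F Z).trace).re := by
      rw [show (2 : ℂ) = ((2 : ℝ) : ℂ) by norm_num, Complex.re_ofReal_mul]
    rw [h5] at h2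
    linarith
  obtain ⟨Q, hQ⟩ : ∃ Q, Q = ∑ z, ∑ w, ‖A z w‖ ^ 2 := ⟨_, rfl⟩
  have hQ0 : 0 ≤ Q := by rw [hQ]; positivity
  obtain ⟨T, hT⟩ : ∃ T, T = ∑ z, ∑ w, ‖A z w‖ := ⟨_, rfl⟩
  have hT0 : 0 ≤ T := by rw [hT]; positivity
  have hQT : Q ≤ c * S * T := by
    have e1 : (Q : ℂ) = ∑ x, ∑ y, star (A x y) * D.h3 F (dd F A) x y -
        ∑ x, ∑ y, star (A x y) * dp F Z x y := by
      rw [← Finset.sum_sub_distrib, hQ]
      push_cast
      refine Finset.sum_congr rfl fun x _ => ?_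
      rw [← Finset.sum_sub_distrib]
      refine Finset.sum_congr rfl fun y _ => ?_
      rw [← mul_sub]
      by_cases h0 : A x y = 0
      · rw [h0, star_zero, zero_mul, norm_zero]
        norm_num
      · rw [hZ, ← Rig_hom H0 H12 H3 H4 U2 S1 S2 Q1 Q2 D F hF hD A hA3 x y (hA3 x y h0).1,
          Complex.star_def, ← Complex.normSq_eq_conj_mul_self, Complex.normSq_eq_norm_sq]
        norm_num
    have e2 : Q = (∑ x, ∑ y, star (A x y) * D.h3 F (dd F A) x y).re := by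
      have := congrArg Complex.re e1
      rw [Complex.ofReal_re, Complex.sub_re, hcross, sub_zero] at this
      exact this
    rw [e2, hT]
    refine (Complex.re_le_norm _).trans ?_
    rw [Finset.mul_sum]
    refine (norm_sum_le _ _).trans (Finset.sum_le_sum fun x _ => ?_)
    rw [Finset.mul_sum]
    refine (norm_sum_le _ _).trans (Finset.sum_le_sum fun y _ => ?_)
    rw [norm_mul, norm_star]
    by_cases h0 : A x y = 0
    · rw [h0, norm_zero]
      simp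
    · rw [mul_comm]
      exact mul_le_mul_of_nonneg_right (hh3 x y h0) (norm_nonneg _)
  have hTQ : T ^ 2 ≤ M * Q := by
    rw [hT, hQ, hM]
    have e1 : ∑ z, ∑ w, ‖A z w‖ = ∑ p : (V × V) × (V × V), ‖A p.1 p.2‖ :=
      (Fintype.sum_prod_type fun p : (V × V) × (V × V) => ‖A p.1 p.2‖).symm
    have e2 : ∑ z, ∑ w, ‖A z w‖ ^ 2 = ∑ p : (V × V) × (V × V), ‖A p.1 p.2‖ ^ 2 :=
      (Fintype.sum_prod_type fun p : (V × V) × (V × V) => ‖A p.1 p.2‖ ^ 2).symm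
    rw [e1, e2]
    exact sq_sum_le_card_mul_sum_sq
  have hQS : Q ≤ c ^ 2 * M * S ^ 2 := by
    rcases hQ0.eq_or_lt with h0 | h0
    · rw [← h0]
      positivity
    · have h2 : Q ^ 2 ≤ (c * S * T) ^ 2 := pow_le_pow_left₀ hQ0 hQT 2
      have h3 : (c * S * T) ^ 2 ≤ (c * S) ^ 2 * (M * Q) := by
        rw [mul_pow]
        exact mul_le_mul_of_nonneg_left hTQ (by positivity)
      have h4 : Q * Q ≤ (c ^ 2 * M * S ^ 2) * Q := by
        calc Q * Q = Q ^ 2 := by ring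
          _ ≤ _ := h2.trans h3
          _ = _ := by ring
      exact le_of_mul_le_mul_right h4 h0
  have hSQ : S ≤ 2 * Q + 2 * M * S ^ 2 := by
    have h2 : ∀ z w, ‖η z w‖ ^ 2 ≤ 2 * ‖A z w‖ ^ 2 + 2 * S ^ 2 := by
      intro z w
      have e : η z w = A z w - (1 / 2 : ℂ) * (η * ηᴴ) z w := by
        rw [hAη, Matrix.add_apply, Matrix.smul_apply, smul_eq_mul]
        ring
      have h5 : ‖(1 / 2 : ℂ) * (η * ηᴴ) z w‖ ≤ S := by
        rw [norm_mul]
        have h5 : ‖(1 / 2 : ℂ)‖ ≤ 1 := by norm_num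
        calc ‖(1 / 2 : ℂ)‖ * ‖(η * ηᴴ) z w‖ ≤ 1 * S :=
              mul_le_mul h5 (hηη z w) (norm_nonneg _) zero_le_one
          _ = S := one_mul _
      have h6 : ‖η z w‖ ≤ ‖A z w‖ + S := by
        rw [e]
        exact (norm_sub_le _ _).trans (by linarith)
      have h7 := pow_le_pow_left₀ (norm_nonneg _) h6 2
      nlinarith [sq_nonneg (‖A z w‖ - S)]
    have h3 : S - 2 * Q ≤ M * (2 * S ^ 2) := by
      rw [hQ]
      nth_rewrite 1 [hS]
      rw [Finset.mul_sum, ← Finset.sum_sub_distrib]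
      have : ∀ z, (∑ w, ‖η z w‖ ^ 2) - 2 * ∑ w, ‖A z w‖ ^ 2 =
          ∑ w, (‖η z w‖ ^ 2 - 2 * ‖A z w‖ ^ 2) := by
        intro z
        rw [Finset.mul_sum, ← Finset.sum_sub_distrib]
      rw [Finset.sum_congr rfl fun z _ => this z]
      apply hsumM
      intro z w
      have := h2 z w
      linarith
    linarith
  calc S ≤ 2 * Q + 2 * M * S ^ 2 := hSQ
    _ ≤ 2 * (c ^ 2 * M * S ^ 2) + 2 * M * S ^ 2 := by linarith
    _ = _ := by ring

end core

theorem Rig : RigRow_stmt := by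
  intro DI H0 H12 H3 H4 X1 Coc G Min Cr U1 U2 S1 S2 BB CC CR CB RU DU CS Q1 Q2 I V _ _ _ _ D F hF
  have hD := DI CS CR RU DU BB CC CB U1 U2 S1 I V D F hF
  obtain ⟨C, hC0, hcore⟩ := Rig_core H0 H12 H3 H4 U2 S1 S2 Q1 Q2 X1 Coc G Cr D F hF hD
  obtain ⟨hGr, hGs, hGt, hGm, hGi, hGu⟩ := G I V D
  obtain ⟨M, hM⟩ : ∃ M : ℝ, M = (Fintype.card V : ℝ) ^ 4 := ⟨_, rfl⟩
  have hM0 : 0 ≤ M := by rw [hM]; positivity
  obtain ⟨N, hN⟩ : ∃ N : ℝ, N = ∑ z, ∑ w, ‖Fm F z w‖ ^ 2 := ⟨_, rfl⟩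
  have hN0 : 0 ≤ N := by rw [hN]; positivity
  have hCMN : 0 ≤ C * M * N := by positivity
  refine ⟨1 / (1 + C * M * N), by positivity, ?_⟩
  intro F' hF' hclose
  obtain ⟨ε, hε⟩ : ∃ ε : ℝ, ε = 1 / (1 + C * M * N) := ⟨_, rfl⟩
  rw [← hε] at hclose
  have hε0 : 0 < ε := by rw [hε]; positivity
  have hε1 : ε ≤ 1 := by
    rw [hε, div_le_one (by positivity)]
    linarith
  have hεC : C * M * N * ε < 1 := by
    rw [hε, mul_one_div, div_lt_one (by positivity)]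
    linarith
  obtain ⟨u, hu, humin⟩ := Min I V D F F'
  have hF'' : D.UF (act u F') := hGu u F' hu hF'
  have hmin : ∀ v, D.Gau v → ∑ α, ∑ γ, ∑ β, ∑ δ, ‖act u F' α γ β δ - F α γ β δ‖ ^ 2 ≤
      ∑ α, ∑ γ, ∑ β, ∑ δ, ‖act v (act u F') α γ β δ - F α γ β δ‖ ^ 2 := by
    intro v hv
    obtain ⟨h1, h2⟩ := hGm v u hv hu
    have h3 := humin _ h1
    rw [h2 F'] at h3
    exact h3
  have hS := hcore (act u F') hF'' hmin
  obtain ⟨hPL, hX3, hXF, hXX⟩ := X1 I V D F (act u F') hF.uf hF''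
  obtain ⟨hPL', hX3', hXF', hXX'⟩ := X1 I V D F F hF.uf hF.uf
  obtain ⟨v, hv, hv'⟩ := hGr F'
  have hdist : ∑ α, ∑ γ, ∑ β, ∑ δ, ‖act u F' α γ β δ - F α γ β δ‖ ^ 2 ≤ M * ε ^ 2 := by
    refine (humin v hv).trans ?_
    rw [← hv']
    calc ∑ α, ∑ γ, ∑ β, ∑ δ, ‖F' α γ β δ - F α γ β δ‖ ^ 2
        ≤ ∑ α : V, ∑ γ : V, ∑ β : V, ∑ δ : V, ε ^ 2 :=
          Finset.sum_le_sum fun α _ => Finset.sum_le_sum fun γ _ => Finset.sum_le_sum fun β _ =>
            Finset.sum_le_sum fun δ _ =>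
              pow_le_pow_left₀ (norm_nonneg _) (hclose α γ β δ).le 2
      _ = M * ε ^ 2 := by
          rw [hM]
          simp only [Finset.sum_const, Finset.card_univ, nsmul_eq_mul]
          ring
  obtain ⟨S, hSd⟩ : ∃ S : ℝ, S = ∑ z, ∑ w, ‖(Fm (act u F') * (Fm F)ᴴ - D.PL) z w‖ ^ 2 := ⟨_, rfl⟩
  rw [← hSd] at hS
  have hS0 : 0 ≤ S := by rw [hSd]; positivity
  have hSb : S ≤ M * ε ^ 2 * N := by
    have e1 : Fm (act u F') * (Fm F)ᴴ - D.PL = (Fm (act u F') - Fm F) * (Fm F)ᴴ := by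
      rw [Matrix.sub_mul, hPL]
    rw [hSd, e1, hN]
    refine (Rig_hs_bound _ _).trans (mul_le_mul_of_nonneg_right ?_ (by positivity))
    refine le_trans (le_of_eq ?_) hdist
    rw [Fintype.sum_prod_type]
    refine Finset.sum_congr rfl fun α _ => Finset.sum_congr rfl fun γ _ => ?_
    rw [Fintype.sum_prod_type]
    rfl
  have hCS : C * S < 1 := by
    calc C * S ≤ C * (M * ε ^ 2 * N) := mul_le_mul_of_nonneg_left hSb hC0
      _ = C * M * N * (ε * ε) := by ring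
      _ ≤ C * M * N * ε := by
          refine mul_le_mul_of_nonneg_left ?_ hCMN
          nlinarith
      _ < 1 := hεC
  have hSz : S = 0 := by
    by_contra hne
    have hpos : 0 < S := lt_of_le_of_ne hS0 (Ne.symm hne)
    nlinarith
  have hη : Fm (act u F') * (Fm F)ᴴ - D.PL = 0 := by
    ext z w
    rw [hSz] at hSd
    have h1 := (Finset.sum_eq_zero_iff_of_nonneg (fun z _ => by positivity)).1 hSd.symm z
      (mem_univ z)
    have h2 := (Finset.sum_eq_zero_iff_of_nonneg (fun w _ => by positivity)).1 h1 w (mem_univ w)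
    rw [Matrix.zero_apply]
    exact norm_eq_zero.1 (pow_eq_zero_iff (two_ne_zero) |>.1 h2)
  have hFF : Fm (act u F') = Fm F := by
    rw [← hXF, sub_eq_zero.1 hη, ← hPL, hXF']
  refine ⟨u, hu, ?_⟩
  funext α γ β δ
  exact (congrFun (congrFun hFF (α, γ)) (β, δ)).symm

end Pool.Agent.helper93.TV
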